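import Pool.Agent.W622.ETG.Lin

set_option autoImplicit false

/-! ELG-MCL: the linear algebra contradiction behind MCD -/

namespace Pool.Agent.W637.ELG

open Module Pool.Agent.W622.ETG

section

variable {V : Type} [AddCommGroup V] [Module (ZMod 2) V] [Finite V]

/-- prescribed values on independent functionals -/
theorem exists_vec {f : Fin 5 → Dl V} (hli : LinearIndependent (ZMod 2) f) (x : Fin 5 → ZMod 2) :
    ∃ v : V, ∀ i, f i v = x i := by
  let b := Basis.span hli
  obtain ⟨v, hv⟩ := exists_val (Submodule.span (ZMod 2) (Set.range f)) (b.constr (ZMod 2) x)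
  refine ⟨v, fun i => ?_⟩
  have h1 := hv (b i)
  rw [Basis.constr_basis] at h1
  have h2 : ((b i : Submodule.span (ZMod 2) (Set.range f)) : Dl V) = f i :=
    congrArg Subtype.val (Basis.span_apply hli i)
  rw [h2] at h1
  exact h1

theorem t_MCL : S_MCL := by
  intro V _ _ _ e A h t m r m' hE hL he te re me me' hli hspan hh ht hr hP hQ hkill
  have hvec := exists_vec hli
  obtain ⟨vt, hvt⟩ := hvec ![0, 1, 0, 0, 0]
  obtain ⟨vm, hvm⟩ := hvec ![0, 0, 1, 0, 0]
  obtain ⟨vr, hvr⟩ := hvec ![0, 0, 0, 1, 0]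
  obtain ⟨vn, hvn⟩ := hvec ![0, 0, 0, 0, 1]
  have t1 : h vt = 0 := hvt 0
  have t2 : t vt = 1 := hvt 1
  have t3 : m vt = 0 := hvt 2
  have t4 : r vt = 0 := hvt 3
  have t5 : m' vt = 0 := hvt 4
  have m1 : h vm = 0 := hvm 0
  have m2 : t vm = 0 := hvm 1
  have m3 : m vm = 1 := hvm 2
  have m4 : r vm = 0 := hvm 3
  have m5 : m' vm = 0 := hvm 4
  have r1 : h vr = 0 := hvr 0
  have r2 : t vr = 0 := hvr 1
  have r3 : m vr = 0 := hvr 2
  have r4 : r vr = 1 := hvr 3
  have r5 : m' vr = 0 := hvr 4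
  have n1 : h vn = 0 := hvn 0
  have n2 : t vn = 0 := hvn 1
  have n3 : m vn = 0 := hvn 2
  have n4 : r vn = 0 := hvn 3
  have n5 : m' vn = 1 := hvn 4
  have hPa : ∀ a b, wd e (h + t) m a b = (h a + t a) * m b + m a * (h b + t b) := by
    intro a b
    rw [wd_apply', me]
    simp only [LinearMap.add_apply]
    ring
  have hQa : ∀ a b, wd e (h + r) m' a b = (h a + r a) * m' b + m' a * (h b + r b) := by
    intro a b
    rw [wd_apply', me']
    simp only [LinearMap.add_apply]
    ring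
  -- all functionals are combinations
  have hall : ∀ u : Dl V, ∃ x1 x2 x3 x4 x5 : ZMod 2,
      u = x1 • h + x2 • t + x3 • m + x4 • r + x5 • m' := by
    intro u
    have hu : u ∈ Submodule.span (ZMod 2) {h, t, m, r, m'} := by
      rw [hspan]; exact Submodule.mem_top
    rw [Submodule.mem_span_insert] at hu
    obtain ⟨x1, u1, hu1, e1⟩ := hu
    rw [Submodule.mem_span_insert] at hu1
    obtain ⟨x2, u2, hu2, e2⟩ := hu1
    rw [Submodule.mem_span_insert] at hu2
    obtain ⟨x3, u3, hu3, e3⟩ := hu2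
    rw [Submodule.mem_span_insert] at hu3
    obtain ⟨x4, u4, hu4, e4⟩ := hu3
    rw [Submodule.mem_span_singleton] at hu4
    obtain ⟨x5, e5⟩ := hu4
    refine ⟨x1, x2, x3, x4, x5, ?_⟩
    rw [e1, e2, e3, e4, ← e5]
    abel
  -- members whose value at `e` has no `m`, `m'`
  have key : ∀ ζ ∈ A, ζ e vm = 0 → ζ e vn = 0 → ∃ x1 x2 x3 x y : ZMod 2, ∀ a b, ζ a b =
      x1 * (h a * h b) + x2 * (t a * t b) + x3 * (r a * r b) +
      x * ((h a + t a) * m b + m a * (h b + t b)) +
      y * ((h a + r a) * m' b + m' a * (h b + r b)) := by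
    intro ζ hζ z1 z2
    obtain ⟨x1, x2, x3, x4, x5, hu⟩ := hall (ζ e)
    have e3 : x3 = 0 := by
      rw [hu] at z1
      simpa [m1, m2, m3, m4, m5] using z1
    have e5 : x5 = 0 := by
      rw [hu] at z2
      simpa [n1, n2, n3, n4, n5] using z2
    rw [e3, e5, zero_smul, zero_smul, add_zero, add_zero] at hu
    have hmem : ζ + (x1 • sqf h + x2 • sqf t + x4 • sqf r) ∈ A :=
      A.add_mem hζ (A.add_mem (A.add_mem (A.smul_mem _ hh) (A.smul_mem _ ht)) (A.smul_mem _ hr))
    have hev : (ζ + (x1 • sqf h + x2 • sqf t + x4 • sqf r)) e = 0 := by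
      rw [LinearMap.add_apply, LinearMap.add_apply, LinearMap.add_apply, LinearMap.smul_apply,
        LinearMap.smul_apply, LinearMap.smul_apply, sqf_apply, sqf_apply, sqf_apply, he, te, re,
        one_smul, one_smul, one_smul, hu]
      exact vadd _
    have hfin : ∀ (x y : ZMod 2), ζ + (x1 • sqf h + x2 • sqf t + x4 • sqf r) =
        x • wd e (h + t) m + y • wd e (h + r) m' → ∃ x1 x2 x3 x y : ZMod 2, ∀ a b, ζ a b =
      x1 * (h a * h b) + x2 * (t a * t b) + x3 * (r a * r b) +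
      x * ((h a + t a) * m b + m a * (h b + t b)) +
      y * ((h a + r a) * m' b + m' a * (h b + r b)) := by
      intro x y hxy
      refine ⟨x1, x2, x4, x, y, fun a b => ?_⟩
      have h1 := LinearMap.congr_fun (LinearMap.congr_fun hxy a) b
      simp only [LinearMap.add_apply, LinearMap.smul_apply, smul_eq_mul, sqf_apply', hPa,
        hQa] at h1
      have h2 := zadd (x1 * (h a * h b) + x2 * (t a * t b) + x4 * (r a * r b))
      linear_combination h1 - h2
    rcases hkill _ hmem hev with h1 | h1 | h1 | h1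
    · exact hfin 0 0 (by rw [h1]; simp)
    · exact hfin 1 0 (by rw [h1]; simp)
    · exact hfin 0 1 (by rw [h1]; simp)
    · exact hfin 1 1 (by rw [h1]; simp)
  -- the linked members
  have hlink : ∀ a : V, h a = 0 → t a = 1 → r a = 1 → ∃ ζ ∈ A,
      (∀ b, ζ (vm + vn) b = t b + r b) ∧ ∀ b, ζ a b = t b + r b := by
    intro a h1 h2 h3
    have e1 : ∀ b, (wd e (h + t) m + wd e (h + r) m') (vm + vn) b = t b + r b := by
      intro b
      simp only [LinearMap.add_apply, hPa, hQa, map_add, m1, m2, m3, m4, m5, n1, n2, n3, n4, n5]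
      have := zadd (h b)
      linear_combination this
    have e2 : ∀ b, (sqf t + sqf r) a b = t b + r b := by
      intro b
      simp only [LinearMap.add_apply, sqf_apply', h2, h3, one_mul]
    obtain ⟨ζ, hζ, z1, z2⟩ := hL _ (A.add_mem hP hQ) _ (A.add_mem ht hr) (vm + vn) a
      (LinearMap.ext fun b => by rw [e1, e2])
    exact ⟨ζ, hζ, fun b => by rw [z1, e1], fun b => by rw [z2, e1]⟩
  -- the coefficient of `m` in the value at `e` is one
  have hone : ∀ a : V, h a = 0 → t a = 1 → r a = 1 → ∀ ζ ∈ A,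
      (∀ b, ζ (vm + vn) b = t b + r b) → (∀ b, ζ a b = t b + r b) →
      ζ e vm = 1 ∧ ζ e vn = 1 := by
    intro a h1 h2 h3 ζ hζ z1 z2
    have hs : ζ e vm + ζ e vn = 0 := by
      rw [← map_add, (hE ζ hζ).symm, z1, te, re]
      decide
    have hne : ζ e vm ≠ 0 := by
      intro h0
      rw [h0, zero_add] at hs
      obtain ⟨x1, x2, x3, x, y, hz⟩ := key ζ hζ h0 hs
      have a1 := z1 vt
      rw [hz] at a1
      simp only [map_add, t1, t2, t3, t4, t5, m1, m2, m3, m4, m5, n1, n2, n3, n4, n5] at a1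
      have a2 := z2 vm
      rw [hz] at a2
      simp only [h1, h2, h3, m1, m2, m3, m4, m5] at a2
      have hx1 : x = 1 := by linear_combination a1
      have hx0 : x = 0 := by linear_combination a2
      rw [hx1] at hx0
      exact absurd hx0 (by decide)
    have h4 : ζ e vm = 1 := z_ne hne
    refine ⟨h4, ?_⟩
    rw [h4] at hs
    have := zadd (1 : ZMod 2)
    linear_combination hs - this
  have ha1 : h (vt + vm + vr + vn) = 0 ∧ t (vt + vm + vr + vn) = 1 ∧ r (vt + vm + vr + vn) = 1 := by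
    refine ⟨?_, ?_, ?_⟩
    · simp only [map_add, t1, m1, r1, n1, add_zero]
    · simp only [map_add, t2, m2, r2, n2, add_zero]
    · simp only [map_add, t4, m4, r4, n4, add_zero, zero_add]
  have ha2 : h (vt + vm + vr) = 0 ∧ t (vt + vm + vr) = 1 ∧ r (vt + vm + vr) = 1 := by
    refine ⟨?_, ?_, ?_⟩
    · simp only [map_add, t1, m1, r1, add_zero]
    · simp only [map_add, t2, m2, r2, add_zero]
    · simp only [map_add, t4, m4, r4, add_zero, zero_add]
  obtain ⟨ζ₁, hζ₁, c1, d1⟩ := hlink _ ha1.1 ha1.2.1 ha1.2.2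
  obtain ⟨ζ₂, hζ₂, c2, d2⟩ := hlink _ ha2.1 ha2.2.1 ha2.2.2
  obtain ⟨o1, o1'⟩ := hone _ ha1.1 ha1.2.1 ha1.2.2 ζ₁ hζ₁ c1 d1
  obtain ⟨o2, o2'⟩ := hone _ ha2.1 ha2.2.1 ha2.2.2 ζ₂ hζ₂ c2 d2
  obtain ⟨x1, x2, x3, x, y, hz⟩ := key (ζ₁ + ζ₂) (A.add_mem hζ₁ hζ₂)
    (by rw [LinearMap.add_apply, LinearMap.add_apply, o1, o2]; decide)
    (by rw [LinearMap.add_apply, LinearMap.add_apply, o1', o2']; decide)
  have b1 : (ζ₁ + ζ₂) (vm + vn) vt = 0 := by
    rw [LinearMap.add_apply, LinearMap.add_apply, c1, c2]; exact zadd _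
  have b2 : (ζ₁ + ζ₂) (vm + vn) vr = 0 := by
    rw [LinearMap.add_apply, LinearMap.add_apply, c1, c2]; exact zadd _
  rw [hz] at b1 b2
  simp only [map_add, t1, t2, t3, t4, t5, m1, m2, m3, m4, m5, n1, n2, n3, n4, n5] at b1
  simp only [map_add, r1, r2, r3, r4, r5, m1, m2, m3, m4, m5, n1, n2, n3, n4, n5] at b2
  have hx : x = 0 := by linear_combination b1
  have hy : y = 0 := by linear_combination b2
  have b3 := hz (vt + vm + vr) vn
  rw [hx, hy, LinearMap.add_apply, LinearMap.add_apply, d2, n1, n2, n4] at b3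
  have b4 : ζ₁ (vt + vm + vr) vn = 0 := by linear_combination b3
  have b5 := d1 vn
  rw [n2, n4, map_add, LinearMap.add_apply, b4, (hE ζ₁ hζ₁).sq, (hE ζ₁ hζ₁).symm, o1'] at b5
  exact absurd b5 (by decide)

end

end Pool.Agent.W637.ELG
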